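import Mathlib
import Pool.Agent.H16.Tds

set_option autoImplicit false

namespace Pool.Agent.Results.MP_bfbf95_lc.NPHard

open Pool.Agent.H11.PT Pool.Agent.H16.Tds

theorem result : NPHard fun y : ℕ × List (ℕ × ℕ) =>
    (∀ v, ∃ u, (gr y.1 y.2).Adj v u) ∧ gammaT (gr y.1 y.2) = subT (gr y.1 y.2) := hard.npHard

end Pool.Agent.Results.MP_bfbf95_lc.NPHard
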